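import Pool.Agent.helper23.HS.Words

/-!
# Measurability of the windows in the plane (module HS-Meas)

`T2 ε w = {q | 0 < q.2 ∧ q.1 ∈ T q.2 (2 + 2 q.2 + ε) w}` is a countable union of compact sets. For
`m : ℕ` let `K m = {q : ℝ × ℝ | |q.1| ≤ m ∧ 0 ≤ q.2 ∧ q.2 ≤ m}` (compact) and let `M = m + 2`.
The set of pairs `(q, z)`, `q ∈ K m`, `z : ℕ → ℝ` with `|z k| ≤ M` for all `k` and all the conditions in
the definition of `T` (closed conditions) is compact (Tychonoff: `isCompact_univ_pi`), hence its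
projection to `q` is compact. The bound `|z k| ≤ M` is automatic for `q ∈ K m`: `z` is periodic,
so `|z|` has a maximum `Z`, attained at some `j + 1`, and
`Z^2 = z (j+1)^2 = a - z (j+2) + b z j ≤ m + (1 + m) Z`, so `Z ≤ m + 2`.
So `T2 ε w ∩ K m` = projection `∩ {0 < q.2}`, measurable.
meas_inf: the list words are countable: `{w | q ∈ T2 ε w}.Infinite` iff for every `n` there is `w` with
`n ≤ w.length` and `q ∈ T2 ε w` (finitely many words of length `< n`); countable intersections and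
unions.
-/

namespace Pool.Agent.helper23.HS

open MeasureTheory

/-- The planar windows. -/
def T2 (ε : ℝ) (w : List Bool) : Set (ℝ × ℝ) :=
  {q | 0 < q.2 ∧ q.1 ∈ T q.2 (2 + 2 * q.2 + ε) w}

/-- `sol` depends continuously on the parameter, the coefficients and the initial values. -/
theorem sol_cont {X : Type*} [TopologicalSpace X] {b : X → ℝ} {c : X → ℕ → ℝ} {α β : X → ℝ}
    (hb : Continuous b) (hc : ∀ k, Continuous (fun x => c x k)) (hα : Continuous α)
    (hβ : Continuous β) (k : ℕ) :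
    Continuous (fun x => sol (b x) (c x) (α x) (β x) k) ∧
      Continuous (fun x => sol (b x) (c x) (α x) (β x) (k + 1)) := by
  induction k with
  | zero => exact ⟨hα, hβ⟩
  | succ k ih =>
    refine ⟨ih.2, ?_⟩
    have h : (fun x => sol (b x) (c x) (α x) (β x) (k + 1 + 1)) = fun x =>
        - c x (k + 1) * sol (b x) (c x) (α x) (β x) (k + 1)
          + b x * sol (b x) (c x) (α x) (β x) k := by
      funext x
      rfl
    rw [h]
    exact ((hc (k + 1)).neg.mul ih.2).add (hb.mul ih.1)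

theorem chi_cont {X : Type*} [TopologicalSpace X] {b : X → ℝ} {c : X → ℕ → ℝ}
    (hb : Continuous b) (hc : ∀ k, Continuous (fun x => c x k)) (n : ℕ) :
    Continuous (fun x => chi (b x) (c x) n) := by
  have h1 := sol_cont (α := fun _ : X => (1 : ℝ)) (β := fun x => - c x 0) hb hc
    continuous_const (hc 0).neg n
  have h0 := sol_cont (α := fun _ : X => (0 : ℝ)) (β := fun _ : X => (1 : ℝ)) hb hc
    continuous_const continuous_const n
  have h : (fun x => chi (b x) (c x) n) = fun x =>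
      1 - sol (b x) (c x) 1 (- c x 0) (n + 1) - b x * sol (b x) (c x) 0 1 n
        + b x * (sol (b x) (c x) 0 1 n * sol (b x) (c x) 1 (- c x 0) (n + 1)
          - sol (b x) (c x) 1 (- c x 0) n * sol (b x) (c x) 0 1 (n + 1)) := by
    funext x
    rfl
  rw [h]
  exact ((continuous_const.sub h1.2).sub (hb.mul h0.1)).add
    (hb.mul ((h0.1.mul h1.2).sub (h1.1.mul h0.2)))

/-- The pairs (parameter, orbit) satisfying all conditions. -/
def SS (ε : ℝ) (w : List Bool) : Set ((ℝ × ℝ) × (ℕ → ℝ)) :=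
  {p | Orb p.1.1 p.1.2 (2 + 2 * p.1.2 + ε) w.length p.2 ∧
    (∀ (k : ℕ) (hk : k < w.length),
      (w[k] = true → 0 ≤ p.2 (k + 1)) ∧ (w[k] = false → p.2 (k + 1) ≤ 0)) ∧
    |chi p.1.2 (fun k => 2 * p.2 k) w.length| ≤ 4}

theorem SS_closed (ε : ℝ) (w : List Bool) : IsClosed (SS ε w) := by
  have hz : ∀ k : ℕ, Continuous (fun p : (ℝ × ℝ) × (ℕ → ℝ) => p.2 k) := fun k =>
    (continuous_apply k).comp continuous_snd
  have ha : Continuous (fun p : (ℝ × ℝ) × (ℕ → ℝ) => p.1.1) :=
    continuous_fst.comp continuous_fst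
  have hb : Continuous (fun p : (ℝ × ℝ) × (ℕ → ℝ) => p.1.2) :=
    continuous_snd.comp continuous_fst
  have e : SS ε w = ({p | p.2 (w.length + 1) = p.2 0} ∩ {p | p.2 (w.length + 2) = p.2 1}) ∩
      ((⋂ k : ℕ, {p | p.2 (k + 2) + p.2 (k + 1) ^ 2 - p.1.2 * p.2 k = p.1.1}) ∩
        (⋂ k : ℕ, {p | 1 ≤ k → k ≤ w.length → 2 + 2 * p.1.2 + ε ≤ |2 * p.2 k|})) ∩
      ((⋂ k : ℕ, {p | ∀ hk : k < w.length,
        (w[k] = true → 0 ≤ p.2 (k + 1)) ∧ (w[k] = false → p.2 (k + 1) ≤ 0)}) ∩
        {p | |chi p.1.2 (fun k => 2 * p.2 k) w.length| ≤ 4}) := by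
    ext p
    simp only [SS, Set.mem_ofPred_eq, Set.mem_inter_iff, Set.mem_iInter]
    constructor
    · rintro ⟨ho, hs, hc⟩
      exact ⟨⟨⟨ho.per, ho.per1⟩, ho.eqn, ho.out⟩, hs, hc⟩
    · rintro ⟨⟨⟨h1, h2⟩, h3, h4⟩, h5, h6⟩
      exact ⟨⟨h1, h2, h3, h4⟩, h5, h6⟩
  rw [e]
  refine IsClosed.inter (IsClosed.inter (IsClosed.inter ?_ ?_) (IsClosed.inter ?_ ?_))
    (IsClosed.inter ?_ ?_)
  · exact isClosed_eq (hz _) (hz _)
  · exact isClosed_eq (hz _) (hz _)
  · exact isClosed_iInter fun k =>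
      isClosed_eq (((hz _).add ((hz _).pow 2)).sub (hb.mul (hz _))) ha
  · refine isClosed_iInter fun k => ?_
    by_cases h1 : 1 ≤ k
    · by_cases h2 : k ≤ w.length
      · have : {p : (ℝ × ℝ) × (ℕ → ℝ) | 1 ≤ k → k ≤ w.length →
            2 + 2 * p.1.2 + ε ≤ |2 * p.2 k|} = {p | 2 + 2 * p.1.2 + ε ≤ |2 * p.2 k|} := by
          ext p
          simp [h1, h2]
        rw [this]
        exact isClosed_le ((continuous_const.add (continuous_const.mul hb)).add continuous_const)
          (continuous_const.mul (hz k)).abs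
      · have : {p : (ℝ × ℝ) × (ℕ → ℝ) | 1 ≤ k → k ≤ w.length →
            2 + 2 * p.1.2 + ε ≤ |2 * p.2 k|} = Set.univ := by
          ext p
          simp [h2]
        rw [this]
        exact isClosed_univ
    · have : {p : (ℝ × ℝ) × (ℕ → ℝ) | 1 ≤ k → k ≤ w.length →
          2 + 2 * p.1.2 + ε ≤ |2 * p.2 k|} = Set.univ := by
        ext p
        simp [h1]
      rw [this]
      exact isClosed_univ
  · refine isClosed_iInter fun k => ?_
    by_cases hk : k < w.length
    · cases hw : w[k] with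
      | true =>
        have : {p : (ℝ × ℝ) × (ℕ → ℝ) | ∀ hk : k < w.length,
            (w[k] = true → 0 ≤ p.2 (k + 1)) ∧ (w[k] = false → p.2 (k + 1) ≤ 0)} =
            {p | 0 ≤ p.2 (k + 1)} := by
          ext p
          simp only [Set.mem_ofPred_eq]
          constructor
          · intro h
            exact (h hk).1 hw
          · intro h hk'
            refine ⟨fun _ => h, fun h' => ?_⟩
            rw [hw] at h'
            exact absurd h' (by decide)
        rw [this]
        exact isClosed_le continuous_const (hz _)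
      | false =>
        have : {p : (ℝ × ℝ) × (ℕ → ℝ) | ∀ hk : k < w.length,
            (w[k] = true → 0 ≤ p.2 (k + 1)) ∧ (w[k] = false → p.2 (k + 1) ≤ 0)} =
            {p | p.2 (k + 1) ≤ 0} := by
          ext p
          simp only [Set.mem_ofPred_eq]
          constructor
          · intro h
            exact (h hk).2 hw
          · intro h hk'
            refine ⟨fun h' => ?_, fun _ => h⟩
            rw [hw] at h'
            exact absurd h' (by decide)
        rw [this]
        exact isClosed_le (hz _) continuous_const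
    · have : {p : (ℝ × ℝ) × (ℕ → ℝ) | ∀ hk : k < w.length,
          (w[k] = true → 0 ≤ p.2 (k + 1)) ∧ (w[k] = false → p.2 (k + 1) ≤ 0)} = Set.univ := by
        ext p
        simp only [Set.mem_ofPred_eq, Set.mem_univ, iff_true]
        intro hk'
        exact absurd hk' hk
      rw [this]
      exact isClosed_univ
  · have hc := chi_cont (X := (ℝ × ℝ) × (ℕ → ℝ)) (b := fun p => p.1.2)
      (c := fun p k => 2 * p.2 k) hb (fun k => continuous_const.mul (hz k)) w.length
    exact isClosed_le hc.abs continuous_const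

/-- The orbits are periodic. -/
theorem orb_periodic {a b R : ℝ} {n : ℕ} {z : ℕ → ℝ} (h : Orb a b R n z) (k : ℕ) :
    z (k + (n + 1)) = z k ∧ z (k + 1 + (n + 1)) = z (k + 1) := by
  induction k with
  | zero =>
    refine ⟨?_, ?_⟩
    · rw [zero_add]; exact h.per
    · have : 0 + 1 + (n + 1) = n + 2 := by ring
      rw [this, zero_add]; exact h.per1
  | succ k ih =>
    refine ⟨ih.2, ?_⟩
    have h1 := h.eqn k
    have h2 := h.eqn (k + (n + 1))
    have e1 : k + (n + 1) + 2 = k + 1 + 1 + (n + 1) := by ring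
    have e2 : k + (n + 1) + 1 = k + 1 + (n + 1) := by ring
    rw [e1, e2, ih.1, ih.2] at h2
    have e3 : k + 1 + 1 = k + 2 := rfl
    rw [e3] at h2 ⊢
    linarith

/-- The orbits are bounded in terms of the parameters. -/
theorem orb_bound {a b R : ℝ} {n m : ℕ} {z : ℕ → ℝ} (h : Orb a b R n z) (ha : |a| ≤ m)
    (hb0 : 0 ≤ b) (hb : b ≤ m) (k : ℕ) : |z k| ≤ (m : ℝ) + 2 := by
  obtain ⟨k0, hk0, hmax⟩ := Finset.exists_max_image (Finset.range (n + 1)) (fun k => |z k|)
    ⟨0, by simp⟩
  have hall : ∀ j : ℕ, |z j| ≤ |z k0| := by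
    intro j
    induction j using Nat.strong_induction_on with
    | _ j ih =>
      by_cases hj : j < n + 1
      · exact hmax j (Finset.mem_range.mpr hj)
      · have hj' : n + 1 ≤ j := not_lt.mp hj
        have e : j = (j - (n + 1)) + (n + 1) := (Nat.sub_add_cancel hj').symm
        rw [e, (orb_periodic h (j - (n + 1))).1]
        exact ih _ (by omega)
  have hk : z (k0 + n + 1) = z k0 := (orb_periodic h k0).1
  have h1 := h.eqn (k0 + n)
  rw [hk] at h1
  have h2 := hall (k0 + n + 2)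
  have h3 := hall (k0 + n)
  have hm0 : (0 : ℝ) ≤ m := Nat.cast_nonneg m
  have hZ0 : 0 ≤ |z k0| := abs_nonneg _
  have hsq : |z k0| ^ 2 = z k0 ^ 2 := sq_abs _
  have h4 : b * z (k0 + n) ≤ m * |z k0| := by
    calc b * z (k0 + n) ≤ b * |z k0| :=
          mul_le_mul_of_nonneg_left (le_trans (le_abs_self _) h3) hb0
      _ ≤ m * |z k0| := mul_le_mul_of_nonneg_right hb hZ0
  have h5 : - z (k0 + n + 2) ≤ |z k0| := le_trans (neg_le_abs _) h2
  have h6 : a ≤ m := le_trans (le_abs_self _) ha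
  have h7 : |z k0| ^ 2 ≤ m + (1 + m) * |z k0| := by nlinarith
  have h8 : |z k0| ≤ (m : ℝ) + 2 := by
    by_contra hcon
    have hcon' : (m : ℝ) + 2 < |z k0| := not_le.mp hcon
    nlinarith
  exact le_trans (hall k) h8

theorem meas_T2 (ε : ℝ) (w : List Bool) : MeasurableSet (T2 ε w) := by
  have key : T2 ε w = ⋃ m : ℕ, ((Prod.fst '' (SS ε w ∩
      ((Set.Icc (-(m : ℝ)) m ×ˢ Set.Icc (0 : ℝ) m) ×ˢ
        Set.univ.pi (fun _ : ℕ => Set.Icc (-((m : ℝ) + 2)) ((m : ℝ) + 2))))) ∩
        {q : ℝ × ℝ | 0 < q.2}) := by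
    ext q
    simp only [Set.mem_iUnion, Set.mem_inter_iff, Set.mem_image, Set.mem_ofPred_eq]
    constructor
    · rintro ⟨hq, z, ho, hs, hc⟩
      obtain ⟨m, hm⟩ := exists_nat_ge (max |q.1| q.2)
      have hm1 : |q.1| ≤ m := le_trans (le_max_left _ _) hm
      have hm2 : q.2 ≤ m := le_trans (le_max_right _ _) hm
      refine ⟨m, ⟨(q, z), ⟨⟨ho, hs, hc⟩, ?_⟩, rfl⟩, hq⟩
      refine ⟨⟨abs_le.mp hm1, ⟨hq.le, hm2⟩⟩, ?_⟩
      intro k _
      exact abs_le.mp (orb_bound ho hm1 hq.le hm2 k)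
    · rintro ⟨m, ⟨⟨q', z⟩, ⟨⟨ho, hs, hc⟩, _⟩, rfl⟩, hq⟩
      exact ⟨hq, z, ho, hs, hc⟩
  rw [key]
  refine MeasurableSet.iUnion fun m => MeasurableSet.inter ?_ ?_
  · apply IsClosed.measurableSet
    apply IsCompact.isClosed
    apply IsCompact.image _ continuous_fst
    apply IsCompact.inter_left _ (SS_closed ε w)
    exact (isCompact_Icc.prod isCompact_Icc).prod (isCompact_univ_pi fun _ => isCompact_Icc)
  · exact (isOpen_lt continuous_const continuous_snd).measurableSet

theorem meas_inf (ε : ℝ) : MeasurableSet {q : ℝ × ℝ | {w | q ∈ T2 ε w}.Infinite} := by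
  have key : {q : ℝ × ℝ | {w | q ∈ T2 ε w}.Infinite} =
      ⋂ n : ℕ, ⋃ w : List Bool, ⋃ _ : n ≤ w.length, T2 ε w := by
    ext q
    simp only [Set.mem_ofPred_eq, Set.mem_iInter, Set.mem_iUnion]
    constructor
    · intro hinf n
      by_contra hcon
      apply hinf
      apply (List.finite_length_lt Bool n).subset
      intro w hw
      by_contra hlen
      exact hcon ⟨w, not_lt.mp hlen, hw⟩
    · intro h hfin
      obtain ⟨N, hN⟩ := (hfin.image List.length).bddAbove
      obtain ⟨w, hw, hq⟩ := h (N + 1)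
      have := hN ⟨w, hq, rfl⟩
      omega
  rw [key]
  exact MeasurableSet.iInter fun n => MeasurableSet.iUnion fun w =>
    MeasurableSet.iUnion fun _ => meas_T2 ε w

end Pool.Agent.helper23.HS
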