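import Pool.Agent.helper23.HS.Jac

/-!
# Every sink visits the strip (module HS-Zero)

Suppose all points of `O` satisfy `R ≤ |2 a x|`. With `p`, `N = n + 1` from the definition of a sink,
`c k = 2 * (a * ((henon a b)^[k] p).1)`, `R ≤ |c k|` for all `k` (the orbit of `p` stays in `O`).
`v k = sol b c 0 1 k`, `s k = sol b c 1 (-c 0) k`; by `chi_eq`, `det_iter` and the Wronskian
`v k * s (k+1) - s k * v (k+1) = - (-b)^k` the trace of `jacIter a b p (n+1)` is `s (n+1) + b v n`.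
Growth: `(R - b) |s k| ≤ |s (k+1)|`, `2 ^ k ≤ |s k|`, and by the Wronskian
`|v k| ≤ (1 - 2⁻ᵏ) |s k|`. So `|trace| ≥ (R - 2 b) |s n| > 2`, contradiction with
`|trace| < 1 + det ≤ 2` (`jury_one`, `jury_neg`).
-/

namespace Pool.Agent.helper23.HS

open Pool.Agent.H48.HN

/-- The Wronskian of the two solutions. -/
theorem zero_wronskian (b : ℝ) (c : ℕ → ℝ) (k : ℕ) :
    sol b c 0 1 k * sol b c 1 (-c 0) (k + 1) - sol b c 1 (-c 0) k * sol b c 0 1 (k + 1)
      = -(-b) ^ k := by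
  induction k with
  | zero => simp [sol]
  | succ k ih =>
    have h1 : sol b c 1 (-c 0) (k + 1 + 1)
        = -c (k + 1) * sol b c 1 (-c 0) (k + 1) + b * sol b c 1 (-c 0) k := rfl
    have h2 : sol b c 0 1 (k + 1 + 1)
        = -c (k + 1) * sol b c 0 1 (k + 1) + b * sol b c 0 1 k := rfl
    rw [h1, h2, pow_succ]
    linear_combination (-b) * ih

/-- Growth of the first solution. -/
theorem zero_growth {b R : ℝ} (hb : 0 < b) (hR : 2 + 2 * b < R) {c : ℕ → ℝ}
    (hc : ∀ k, R ≤ |c k|) (k : ℕ) :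
    (R - b) * |sol b c 1 (-c 0) k| ≤ |sol b c 1 (-c 0) (k + 1)| := by
  induction k with
  | zero =>
    have h1 : sol b c 1 (-c 0) 0 = 1 := rfl
    have h2 : sol b c 1 (-c 0) (0 + 1) = -c 0 := rfl
    rw [h1, h2, abs_one, abs_neg, mul_one]
    have := hc 0
    linarith
  | succ k ih =>
    have h1 : sol b c 1 (-c 0) (k + 1 + 1)
        = -c (k + 1) * sol b c 1 (-c 0) (k + 1) + b * sol b c 1 (-c 0) k := rfl
    have h2 : |c (k + 1)| * |sol b c 1 (-c 0) (k + 1)|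
        ≤ |sol b c 1 (-c 0) (k + 1 + 1)| + b * |sol b c 1 (-c 0) k| := by
      have h3 : c (k + 1) * sol b c 1 (-c 0) (k + 1)
          = b * sol b c 1 (-c 0) k - sol b c 1 (-c 0) (k + 1 + 1) := by
        rw [h1]; ring
      rw [← abs_mul, h3]
      refine (abs_sub _ _).trans ?_
      rw [abs_mul, abs_of_pos hb]
      linarith
    have h4 := abs_nonneg (sol b c 1 (-c 0) k)
    have h5 := abs_nonneg (sol b c 1 (-c 0) (k + 1))
    have h6 : |sol b c 1 (-c 0) k| ≤ |sol b c 1 (-c 0) (k + 1)| := by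
      nlinarith
    have h7 : R * |sol b c 1 (-c 0) (k + 1)| ≤ |c (k + 1)| * |sol b c 1 (-c 0) (k + 1)| :=
      mul_le_mul_of_nonneg_right (hc (k + 1)) h5
    nlinarith

theorem zero_pow {b R : ℝ} (hb : 0 < b) (hR : 2 + 2 * b < R) {c : ℕ → ℝ}
    (hc : ∀ k, R ≤ |c k|) (k : ℕ) : 2 ^ k ≤ |sol b c 1 (-c 0) k| := by
  induction k with
  | zero =>
    have h1 : sol b c 1 (-c 0) 0 = 1 := rfl
    rw [h1, abs_one, pow_zero]
  | succ k ih =>
    have h1 := zero_growth hb hR hc k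
    have h2 := abs_nonneg (sol b c 1 (-c 0) k)
    rw [pow_succ]
    nlinarith

/-- The second solution is smaller than the first one. -/
theorem zero_compare {b R : ℝ} (hb : 0 < b) (hb1 : b < 1) (hR : 2 + 2 * b < R) {c : ℕ → ℝ}
    (hc : ∀ k, R ≤ |c k|) (k : ℕ) :
    |sol b c 0 1 k| ≤ (1 - (1 / 2) ^ k) * |sol b c 1 (-c 0) k| := by
  induction k with
  | zero => simp [sol]
  | succ k ih =>
    have hw := zero_wronskian b c k
    have hs : 2 ^ k ≤ |sol b c 1 (-c 0) k| := zero_pow hb hR hc k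
    have hs1 : 2 ^ (k + 1) ≤ |sol b c 1 (-c 0) (k + 1)| := zero_pow hb hR hc (k + 1)
    have h2k : (1 : ℝ) ≤ 2 ^ k := one_le_pow₀ (by norm_num)
    have hpos : 0 < |sol b c 1 (-c 0) k| := by linarith
    have h1 : |sol b c 0 1 (k + 1)| * |sol b c 1 (-c 0) k|
        ≤ |sol b c 0 1 k| * |sol b c 1 (-c 0) (k + 1)| + 1 := by
      rw [← abs_mul, ← abs_mul]
      have h3 : sol b c 0 1 (k + 1) * sol b c 1 (-c 0) k
          = sol b c 0 1 k * sol b c 1 (-c 0) (k + 1) + (-b) ^ k := by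
        linear_combination -hw
      rw [h3]
      refine (abs_add_le _ _).trans ?_
      have h4 : |(-b) ^ k| ≤ 1 := by
        rw [abs_pow, abs_neg, abs_of_pos hb]
        exact pow_le_one₀ hb.le hb1.le
      linarith
    have h5 : |sol b c 0 1 k| * |sol b c 1 (-c 0) (k + 1)|
        ≤ (1 - (1 / 2) ^ k) * |sol b c 1 (-c 0) k| * |sol b c 1 (-c 0) (k + 1)| :=
      mul_le_mul_of_nonneg_right ih (abs_nonneg _)
    have h6 : (1 : ℝ) ≤ (1 / 2) ^ (k + 1) * (|sol b c 1 (-c 0) k| * |sol b c 1 (-c 0) (k + 1)|) := by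
      have h7 : (2 : ℝ) ^ k * 2 ^ (k + 1)
          ≤ |sol b c 1 (-c 0) k| * |sol b c 1 (-c 0) (k + 1)| :=
        mul_le_mul hs hs1 (by positivity) (abs_nonneg _)
      have h8 : (1 / 2 : ℝ) ^ (k + 1) * ((2 : ℝ) ^ k * 2 ^ (k + 1)) = 2 ^ k := by
        rw [mul_comm ((2 : ℝ) ^ k), ← mul_assoc, ← mul_pow]
        norm_num
      calc (1 : ℝ) ≤ 2 ^ k := h2k
        _ = (1 / 2 : ℝ) ^ (k + 1) * ((2 : ℝ) ^ k * 2 ^ (k + 1)) := h8.symm
        _ ≤ _ := mul_le_mul_of_nonneg_left h7 (by positivity)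
    have h9 : (1 / 2 : ℝ) ^ k = 2 * (1 / 2) ^ (k + 1) := by
      rw [pow_succ]; ring
    have h10 : |sol b c 0 1 (k + 1)| * |sol b c 1 (-c 0) k|
        ≤ ((1 - (1 / 2) ^ (k + 1)) * |sol b c 1 (-c 0) (k + 1)|) * |sol b c 1 (-c 0) k| := by
      rw [h9] at h5
      nlinarith [h1, h5, h6]
    exact le_of_mul_le_mul_right h10 hpos

theorem visits {a b R : ℝ} (hb : 0 < b) (hb1 : b < 1) (hR : 2 + 2 * b < R) {O : Set (ℝ × ℝ)}
    (hO : IsSink a b O) : ∃ q ∈ O, |2 * a * q.1| < R := by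
  by_contra hcon
  push Not at hcon
  obtain ⟨p, N, hN, hper, hOeq, hroot⟩ := hO
  obtain ⟨n, rfl⟩ : ∃ n, N = n + 1 := ⟨N - 1, by omega⟩
  have hc : ∀ k, R ≤ |2 * (a * ((henon a b)^[k] p).1)| := by
    intro k
    have h1 : (henon a b)^[k % (n + 1)] p = (henon a b)^[k] p := by
      rw [← hper]
      exact Function.iterate_mod_minimalPeriod_eq
    have h2 : (henon a b)^[k] p ∈ O := by
      rw [hOeq]
      exact ⟨k % (n + 1), Nat.mod_lt _ (Nat.succ_pos n), h1.symm⟩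
    have h3 := hcon _ h2
    rwa [mul_assoc] at h3
  have hchi := chi_eq a b p n
  have hdet := det_iter a b p (n + 1)
  obtain ⟨c, hcdef⟩ : ∃ c : ℕ → ℝ, c = fun k => 2 * (a * ((henon a b)^[k] p).1) := ⟨_, rfl⟩
  rw [← hcdef] at hchi
  have hc' : ∀ k, R ≤ |c k| := by
    intro k
    rw [hcdef]
    exact hc k
  have hw := zero_wronskian b c n
  have htr : (jacIter a b p (n + 1)).trace = sol b c 1 (-c 0) (n + 1) + b * sol b c 0 1 n := by
    rw [hdet] at hchi
    unfold chi at hchi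
    rw [hw] at hchi
    have h1 : b * -(-b) ^ n = (-b) ^ (n + 1) := by
      rw [pow_succ]; ring
    rw [h1] at hchi
    linarith
  have hr : ∀ μ : ℂ, μ ^ 2 - ((jacIter a b p (n + 1)).trace : ℂ) * μ
      + ((jacIter a b p (n + 1)).det : ℂ) = 0 → ‖μ‖ < 1 := fun μ hμ => hroot μ (charpoly_root.2 hμ)
  have j1 := jury_one hr
  have j2 := jury_neg hr
  have hd : (jacIter a b p (n + 1)).det ≤ 1 := by
    rw [hdet]
    calc (-b) ^ (n + 1) ≤ |(-b) ^ (n + 1)| := le_abs_self _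
      _ = b ^ (n + 1) := by rw [abs_pow, abs_neg, abs_of_pos hb]
      _ ≤ 1 := pow_le_one₀ hb.le hb1.le
  have habs : |(jacIter a b p (n + 1)).trace| < 2 := by
    rw [abs_lt]
    constructor <;> linarith
  have hg := zero_growth hb hR hc' n
  have hp := zero_pow hb hR hc' n
  have hv := zero_compare hb hb1 hR hc' n
  have h2n : (1 : ℝ) ≤ 2 ^ n := one_le_pow₀ (by norm_num)
  have hhalf : (0 : ℝ) ≤ (1 / 2) ^ n := by positivity
  have hs0 := abs_nonneg (sol b c 1 (-c 0) n)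
  have hv' : |sol b c 0 1 n| ≤ |sol b c 1 (-c 0) n| := by nlinarith
  have hlow : |sol b c 1 (-c 0) (n + 1)| ≤ |(jacIter a b p (n + 1)).trace| + b * |sol b c 0 1 n| := by
    have h1 : sol b c 1 (-c 0) (n + 1) = (jacIter a b p (n + 1)).trace - b * sol b c 0 1 n := by
      rw [htr]; ring
    rw [h1]
    refine (abs_sub _ _).trans ?_
    rw [abs_mul, abs_of_pos hb]
  nlinarith

end Pool.Agent.helper23.HS
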