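import Pool.Agent.helper23.HS.Defs

/-!
# Growth, signs, and the adjoint solution (module HS-Adj)

Informal proofs. `v k := sol b c 0 1 k`, `s k := sol b c 1 (-c 0) k`, so
`v 0 = 0`, `v 1 = 1`, `v (k+2) = - c (k+1) v (k+1) + b v k` and the same recursion for `s`.

growth: induction on `k` (statement for `k` and `k+1` together):
`|v (k+2)| ≥ R |v (k+1)| - b |v k| ≥ (R - b/2) |v (k+1)| ≥ 2 |v (k+1)|`, because
`|v k| ≤ |v (k+1)| / 2`.

step_sign: `v (k+2) * (- c (k+1)) * v (k+1) > 0` for `k + 1 ≤ n`, since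
`|b v k| < |c (k+1) v (k+1)|`.

sign: induction with step_sign for `c` and for `c'`: `v (k+1) v' (k+1) > 0` for `k ≤ n`.

adjoint: put `t = (1 - b v n) / v (n+1)` and define `r 0 = 1`, `r 1 = t`,
`r (j+2) = - c (n - j) * r (j+1) + b * r j`, and `g k = r (n + 1 - k)`. Then for `k < n`:
`g k = - c (k+1) g (k+1) + b g (k+2)`. For every solution `x` of the forward recursion
`W k = g k * x (k+1) + b * g (k+1) * x k` is constant for `0 ≤ k ≤ n`:
`W (k+1) = g (k+1) (- c (k+1) x (k+1) + b x k) + b g (k+2) x (k+1) = W k`.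
With `x = v`: `g 0 = W 0 = W n = t v (n+1) + b v n = 1`.
With `x = s`: `- c 0 + b g 1 = W 0 = W n = t s (n+1) + b s n` (as `g n = t`, `g (n+1) = 1`), so
`g n + c 0 - b g 1 = t - t s (n+1) - b s n` and, multiplied by `v (n+1)`,
`(1 - b v n) (1 - s (n+1)) - b s n v (n+1) = chi b c n`.
Sum: with `G = sum over range n of |g (k+1)|`:
`R G ≤ sum |c (k+1)| |g (k+1)| ≤ sum |g k| + b sum |g (k+2)| ≤ (1 + G) + b (G + 1)`.
-/

namespace Pool.Agent.helper23.HS

open Finset

theorem growth {b R : ℝ} {c : ℕ → ℝ} {n : ℕ} (hb : 0 < b) (hR : 2 + 2 * b < R)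
    (hc : ∀ k, 1 ≤ k → k ≤ n → R ≤ |c k|) :
    ∀ k, k ≤ n → 2 * |sol b c 0 1 k| ≤ |sol b c 0 1 (k + 1)| ∧ 2 ^ k ≤ |sol b c 0 1 (k + 1)| := by
  intro k
  induction k with
  | zero =>
    intro _
    simp [sol]
  | succ k ih =>
    intro hk
    obtain ⟨h1, h2⟩ := ih (by omega)
    have hck := hc (k + 1) (by omega) hk
    have e : sol b c 0 1 (k + 1 + 1)
        = - c (k + 1) * sol b c 0 1 (k + 1) + b * sol b c 0 1 k := rfl
    have h3 : |c (k + 1)| * |sol b c 0 1 (k + 1)| - b * |sol b c 0 1 k|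
        ≤ |sol b c 0 1 (k + 1 + 1)| := by
      rw [e]
      have h := abs_sub_abs_le_abs_sub (- c (k + 1) * sol b c 0 1 (k + 1))
        (-(b * sol b c 0 1 k))
      rw [abs_neg, abs_mul, abs_neg, abs_mul, abs_of_pos hb, sub_neg_eq_add] at h
      exact h
    have h4 : R * |sol b c 0 1 (k + 1)| ≤ |c (k + 1)| * |sol b c 0 1 (k + 1)| :=
      mul_le_mul_of_nonneg_right hck (abs_nonneg _)
    have h5 : (2 + 2 * b) * |sol b c 0 1 (k + 1)| ≤ R * |sol b c 0 1 (k + 1)| :=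
      mul_le_mul_of_nonneg_right hR.le (abs_nonneg _)
    have h6 : b * (2 * |sol b c 0 1 k|) ≤ b * |sol b c 0 1 (k + 1)| :=
      mul_le_mul_of_nonneg_left h1 hb.le
    have h7 : 0 ≤ b * |sol b c 0 1 (k + 1)| := mul_nonneg hb.le (abs_nonneg _)
    have h8 : 2 * |sol b c 0 1 (k + 1)| ≤ |sol b c 0 1 (k + 1 + 1)| := by
      linarith
    refine ⟨h8, ?_⟩
    rw [pow_succ]
    linarith

/-- the sign of the next term is the sign of the dominating term -/
private lemma step_sign {b R : ℝ} {c : ℕ → ℝ} {n : ℕ} (hb : 0 < b) (hR : 2 + 2 * b < R)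
    (hc : ∀ k, 1 ≤ k → k ≤ n → R ≤ |c k|) (k : ℕ) (hk : k + 1 ≤ n) :
    0 < sol b c 0 1 (k + 1 + 1) * (- c (k + 1) * sol b c 0 1 (k + 1)) := by
  obtain ⟨h1, h2⟩ := growth hb hR hc k (by omega)
  have hck := hc (k + 1) (by omega) hk
  have e : sol b c 0 1 (k + 1 + 1)
      = - c (k + 1) * sol b c 0 1 (k + 1) + b * sol b c 0 1 k := rfl
  have hv : 0 < |sol b c 0 1 (k + 1)| := lt_of_lt_of_le (by positivity) h2
  have h4 : R * |sol b c 0 1 (k + 1)| ≤ |c (k + 1)| * |sol b c 0 1 (k + 1)| :=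
    mul_le_mul_of_nonneg_right hck (abs_nonneg _)
  have h5 : (2 + 2 * b) * |sol b c 0 1 (k + 1)| < R * |sol b c 0 1 (k + 1)| :=
    mul_lt_mul_of_pos_right hR hv
  have h6 : b * (2 * |sol b c 0 1 k|) ≤ b * |sol b c 0 1 (k + 1)| :=
    mul_le_mul_of_nonneg_left h1 hb.le
  have h7 : 0 < b * |sol b c 0 1 (k + 1)| := mul_pos hb hv
  set A : ℝ := - c (k + 1) * sol b c 0 1 (k + 1) with hA
  set B : ℝ := b * sol b c 0 1 k with hB
  have hAabs : |A| = |c (k + 1)| * |sol b c 0 1 (k + 1)| := by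
    rw [hA, abs_mul, abs_neg]
  have hBabs : |B| = b * |sol b c 0 1 k| := by
    rw [hB, abs_mul, abs_of_pos hb]
  have hlt : |B| < |A| := by
    rw [hAabs, hBabs]
    linarith
  have hApos : 0 < |A| := lt_of_le_of_lt (abs_nonneg B) hlt
  have h9 : -(|B| * |A|) ≤ B * A := by
    rw [← abs_mul]
    exact neg_abs_le (B * A)
  have h10 : |B| * |A| < |A| * |A| := mul_lt_mul_of_pos_right hlt hApos
  have h11 : |A| * |A| = A * A := abs_mul_abs_self A
  rw [e]
  nlinarith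

theorem sign {b R : ℝ} {c c' : ℕ → ℝ} {n : ℕ} (hb : 0 < b) (hR : 2 + 2 * b < R)
    (hc : ∀ k, 1 ≤ k → k ≤ n → R ≤ |c k|) (hc' : ∀ k, 1 ≤ k → k ≤ n → R ≤ |c' k|)
    (hs : ∀ k, 1 ≤ k → k ≤ n → 0 < c k * c' k) :
    0 < sol b c 0 1 (n + 1) * sol b c' 0 1 (n + 1) := by
  have key : ∀ k, k ≤ n → 0 < sol b c 0 1 (k + 1) * sol b c' 0 1 (k + 1) := by
    intro k
    induction k with
    | zero =>
      intro _
      simp [sol]
    | succ k ih =>
      intro hk
      have h0 := ih (by omega)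
      have s1 := step_sign hb hR hc k hk
      have s2 := step_sign hb hR hc' k hk
      have s3 := hs (k + 1) (by omega) hk
      have s4 := mul_pos s1 s2
      have s5 : sol b c 0 1 (k + 1 + 1) * (- c (k + 1) * sol b c 0 1 (k + 1)) *
          (sol b c' 0 1 (k + 1 + 1) * (- c' (k + 1) * sol b c' 0 1 (k + 1)))
          = (sol b c 0 1 (k + 1 + 1) * sol b c' 0 1 (k + 1 + 1)) *
            ((c (k + 1) * c' (k + 1)) * (sol b c 0 1 (k + 1) * sol b c' 0 1 (k + 1))) := by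
        ring
      rw [s5] at s4
      exact pos_of_mul_pos_left s4 (mul_pos s3 h0).le
  exact key n le_rfl

theorem sol_zero (b : ℝ) (c : ℕ → ℝ) (α β : ℝ) : sol b c α β 0 = α := rfl

theorem sol_one (b : ℝ) (c : ℕ → ℝ) (α β : ℝ) : sol b c α β 1 = β := rfl

theorem sol_rec (b : ℝ) (c : ℕ → ℝ) (α β : ℝ) (k : ℕ) :
    sol b c α β (k + 2) = - c (k + 1) * sol b c α β (k + 1) + b * sol b c α β k := rfl

/-- the Wronskian of a backward solution `g` and a forward solution `x` is constant. -/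
theorem wronskian {b : ℝ} {c g x : ℕ → ℝ} {n : ℕ}
    (hg : ∀ k, k < n → g k + c (k + 1) * g (k + 1) - b * g (k + 2) = 0)
    (hx : ∀ k, x (k + 2) = - c (k + 1) * x (k + 1) + b * x k) :
    ∀ k, k ≤ n → g k * x (k + 1) + b * g (k + 1) * x k = g 0 * x 1 + b * g 1 * x 0 := by
  intro k
  induction k with
  | zero => intro _; rfl
  | succ k ih =>
    intro hk
    rw [← ih (by omega)]
    have h1 : g k = - c (k + 1) * g (k + 1) + b * g (k + 2) := by
      have := hg k (by omega)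
      linarith
    have h2 : k + 1 + 1 = k + 2 := rfl
    rw [h2, hx k, h1]
    ring

theorem adjoint {b R : ℝ} {c : ℕ → ℝ} {n : ℕ} (hb : 0 < b) (hR : 2 + 2 * b < R)
    (hc : ∀ k, 1 ≤ k → k ≤ n → R ≤ |c k|) :
    ∃ g : ℕ → ℝ, g 0 = 1 ∧ g (n + 1) = 1 ∧
      (∀ k, k < n → g k + c (k + 1) * g (k + 1) - b * g (k + 2) = 0) ∧
      ∑ k ∈ range n, |g (k + 1)| ≤ (1 + b) / (R - 1 - b) ∧
      (g n + c 0 - b * g 1) * sol b c 0 1 (n + 1) = chi b c n := by
  have hv : sol b c 0 1 (n + 1) ≠ 0 := by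
    have h1 := (growth hb hR hc n le_rfl).2
    intro h0
    rw [h0, abs_zero] at h1
    have h2 : (0 : ℝ) < 2 ^ n := by positivity
    linarith
  obtain ⟨t, ht⟩ : ∃ t : ℝ, t * sol b c 0 1 (n + 1) = 1 - b * sol b c 0 1 n :=
    ⟨(1 - b * sol b c 0 1 n) / sol b c 0 1 (n + 1), div_mul_cancel₀ _ hv⟩
  obtain ⟨g, hgdef⟩ : ∃ g : ℕ → ℝ, ∀ k, g k = sol b (fun i => c (n + 1 - i)) 1 t (n + 1 - k) :=
    ⟨_, fun _ => rfl⟩
  have hgn1 : g (n + 1) = 1 := by
    rw [hgdef, Nat.sub_self]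
    rfl
  have hgn : g n = t := by
    rw [hgdef, Nat.add_sub_cancel_left]
    rfl
  have hg : ∀ k, k < n → g k + c (k + 1) * g (k + 1) - b * g (k + 2) = 0 := by
    intro k hk
    obtain ⟨j, rfl⟩ : ∃ j, n = k + 1 + j := ⟨n - (k + 1), by omega⟩
    have e0 : k + 1 + j + 1 - k = j + 2 := by omega
    have e1 : k + 1 + j + 1 - (k + 1) = j + 1 := by omega
    have e2 : k + 1 + j + 1 - (k + 2) = j := by omega
    have e3 : k + 1 + j + 1 - (j + 1) = k + 1 := by omega
    rw [hgdef k, hgdef (k + 1), hgdef (k + 2), e0, e1, e2, sol_rec]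
    simp only [e3]
    ring
  have hW1 := wronskian (x := sol b c 0 1) hg (sol_rec b c 0 1) n le_rfl
  have hW2 := wronskian (x := sol b c 1 (-c 0)) hg (sol_rec b c 1 (-c 0)) n le_rfl
  rw [hgn, hgn1, sol_zero, sol_one] at hW1 hW2
  have hg0 : g 0 = 1 := by linarith
  refine ⟨g, hg0, hgn1, hg, ?_, ?_⟩
  · have hR1 : 0 < R - 1 - b := by linarith
    rw [le_div_iff₀ hR1]
    have h1 : ∑ k ∈ range n, |g k| ≤ ∑ k ∈ range n, |g (k + 1)| + 1 := by
      have h2 := Finset.sum_range_succ' (fun k => |g k|) n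
      have h3 := Finset.sum_range_succ (fun k => |g k|) n
      simp only [hg0, abs_one] at h2
      have h4 := abs_nonneg (g n)
      linarith
    have h5 : ∑ k ∈ range n, |g (k + 2)| ≤ ∑ k ∈ range n, |g (k + 1)| + 1 := by
      have h2 := Finset.sum_range_succ' (fun k => |g (k + 1)|) n
      have h3 := Finset.sum_range_succ (fun k => |g (k + 1)|) n
      simp only [hgn1, abs_one] at h3
      have h4 := abs_nonneg (g (0 + 1))
      have h6 : ∑ k ∈ range n, |g (k + 1 + 1)| = ∑ k ∈ range n, |g (k + 2)| := rfl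
      linarith
    have h7 : R * ∑ k ∈ range n, |g (k + 1)| ≤
        ∑ k ∈ range n, |g k| + b * ∑ k ∈ range n, |g (k + 2)| := by
      rw [mul_sum, mul_sum, ← sum_add_distrib]
      apply sum_le_sum
      intro k hk
      rw [mem_range] at hk
      have h8 : R ≤ |c (k + 1)| := hc (k + 1) (by omega) (by omega)
      have h9 : c (k + 1) * g (k + 1) = b * g (k + 2) - g k := by
        have := hg k hk
        linarith
      calc R * |g (k + 1)| ≤ |c (k + 1)| * |g (k + 1)| :=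
            mul_le_mul_of_nonneg_right h8 (abs_nonneg _)
        _ = |b * g (k + 2) - g k| := by rw [← abs_mul, h9]
        _ ≤ |b * g (k + 2)| + |g k| := abs_sub _ _
        _ = |g k| + b * |g (k + 2)| := by rw [abs_mul, abs_of_pos hb]; ring
    have h10 := mul_le_mul_of_nonneg_left h5 hb.le
    nlinarith
  · rw [hg0] at hW2
    have h11 : g n + c 0 - b * g 1 = t - t * sol b c 1 (-c 0) (n + 1) - b * sol b c 1 (-c 0) n := by
      rw [hgn]
      linarith
    rw [h11, chi]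
    linear_combination (1 - sol b c 1 (-c 0) (n + 1)) * ht

end Pool.Agent.helper23.HS
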