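import Pool.Agent.helper23.HS.Defs

/-!
# The difference of two orbits (module HS-Diff)

`d k = z' k - z k`. Subtracting the two equations: for `k < n`
`d (k+2) + 2 z (k+1) d (k+1) + d (k+1)^2 - b d k = a' - a`, and (the equation with `k = n` and the
periodicity `z (n+2) = z 1`, `z (n+1) = z 0`, the same for `z'`)
`d 1 + 2 z 0 d 0 + d 0 ^ 2 - b d n = a' - a`.

ident: multiply the equation number `k` by `g (k+1)` and sum over `k < n`; summation by parts
(`range_sum_telescope` type argument: with `U k = g k * d (k+1) + b * g (k+1) * d k` one has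
`U (k+1) = U k + g (k+1) * (a' - a - d (k+1)^2)` for `k < n`, because
`U (k+1) - U k = g (k+1) (d (k+2) - b d k) - d (k+1) (g k - b g (k+2))` and
`g k - b g (k+2) = - 2 z (k+1) g (k+1)`). So `U n - U 0 = sum g (k+1) (a' - a - d (k+1)^2)`, where
`U 0 = d 1 + b g 1 d 0` (`g 0 = 1`), `U n = g n d 0 + b d n` (`d (n+1) = d 0`, `g (n+1) = 1`). Add the
equation at `0`.

sup_bound: `(z (k+1) + z' (k+1)) d (k+1) = (a' - a) - d (k+2) + b d k`, and
`R ≤ |z (k+1) + z' (k+1)|` (same sign). Let `D` be the maximum of `|d (k+1)|`, `k < n`, attained at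
`k0`: `R D ≤ |a' - a| + (1 + b) max(D, |d 0|)` (`d (n+1) = d 0`). If `D ≤ |d 0|`:
`D ≤ (|a'-a| + (1+b)|d 0|) / R ≤ |a'-a| / 2 + |d 0| / 2`; otherwise `D (R - 1 - b) ≤ |a'-a|` and
`R - 1 - b ≥ 1`.
-/

namespace Pool.Agent.helper23.HS

open Finset

theorem ident {a a' b R : ℝ} {n : ℕ} {z z' g : ℕ → ℝ} (hz : Orb a b R n z) (hz' : Orb a' b R n z')
    (g0 : g 0 = 1) (g1 : g (n + 1) = 1)
    (hg : ∀ k, k < n → g k + 2 * z (k + 1) * g (k + 1) - b * g (k + 2) = 0) :
    (g n + 2 * z 0 - b * g 1) * (z' 0 - z 0) + (z' 0 - z 0) ^ 2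
      + ∑ k ∈ range n, g (k + 1) * (z' (k + 1) - z (k + 1)) ^ 2
      = (a' - a) * (1 + ∑ k ∈ range n, g (k + 1)) := by
  have key : ∀ m, m ≤ n → ∑ k ∈ range m, g (k + 1) * (z' (k + 1) - z (k + 1)) ^ 2 =
      (a' - a) * ∑ k ∈ range m, g (k + 1)
        - (g m * (z' (m + 1) - z (m + 1)) + b * g (m + 1) * (z' m - z m))
        + (g 0 * (z' 1 - z 1) + b * g 1 * (z' 0 - z 0)) := by
    intro m
    induction m with
    | zero => intro _; simp
    | succ m ih =>
      intro hm
      have h1 := hg m (by omega)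
      have e1 := hz.eqn m
      have e2 := hz'.eqn m
      rw [sum_range_succ, sum_range_succ, ih (by omega)]
      linear_combination (g (m + 1)) * (e2 - e1) - (z' (m + 1) - z (m + 1)) * h1
  have hk := key n le_rfl
  have e1 := hz.eqn n
  have e2 := hz'.eqn n
  rw [hz.per, hz.per1] at e1
  rw [hz'.per, hz'.per1] at e2
  rw [hz.per, hz'.per, g0, g1] at hk
  rw [hk]
  linear_combination e2 - e1

theorem sup_bound {a a' b R : ℝ} {n : ℕ} {z z' : ℕ → ℝ} (hb : 0 < b) (hR : 2 + 2 * b < R)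
    (hz : Orb a b R n z) (hz' : Orb a' b R n z')
    (hs : ∀ k, 1 ≤ k → k ≤ n → 0 < z k * z' k) :
    ∀ k, k < n → |z' (k + 1) - z (k + 1)| ≤ |z' 0 - z 0| / 2 + |a' - a| := by
  intro k hk
  obtain ⟨m, hm, hmax⟩ := exists_max_image (range n) (fun j => |z' (j + 1) - z (j + 1)|)
    ⟨k, mem_range.2 hk⟩
  rw [mem_range] at hm
  have hmax' : ∀ j, j < n → |z' (j + 1) - z (j + 1)| ≤ |z' (m + 1) - z (m + 1)| :=
    fun j hj => hmax j (mem_range.2 hj)
  refine (hmax' k hk).trans ?_
  have hA0 : 0 ≤ |a' - a| := abs_nonneg _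
  have hD0 : 0 ≤ |z' (m + 1) - z (m + 1)| := abs_nonneg _
  have he0 : 0 ≤ |z' 0 - z 0| := abs_nonneg _
  -- the neighbours of the maximum
  have hM1 : |z' (m + 2) - z (m + 2)| ≤
      max |z' (m + 1) - z (m + 1)| |z' 0 - z 0| := by
    rcases Nat.lt_or_ge (m + 1) n with h | h
    · exact (hmax' (m + 1) h).trans (le_max_left _ _)
    · have hmn : m + 2 = n + 1 := by omega
      rw [hmn, hz.per, hz'.per]
      exact le_max_right _ _
  have hM2 : |z' m - z m| ≤ max |z' (m + 1) - z (m + 1)| |z' 0 - z 0| := by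
    rcases m with _ | j
    · exact le_max_right _ _
    · exact (hmax' j (by omega)).trans (le_max_left _ _)
  -- the size of the sum at the maximum
  have hsum : R ≤ |z' (m + 1) + z (m + 1)| := by
    have h1 := hz.out (m + 1) (by omega) (by omega)
    have h2 := hz'.out (m + 1) (by omega) (by omega)
    have h3 := hs (m + 1) (by omega) (by omega)
    rw [abs_mul, abs_two] at h1 h2
    rcases mul_pos_iff.1 h3 with ⟨p, q⟩ | ⟨p, q⟩
    · rw [abs_of_pos p] at h1
      rw [abs_of_pos q] at h2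
      rw [abs_of_pos (by linarith)]
      linarith
    · rw [abs_of_neg p] at h1
      rw [abs_of_neg q] at h2
      rw [abs_of_neg (by linarith)]
      linarith
  -- the equation
  have heq : (z' (m + 1) + z (m + 1)) * (z' (m + 1) - z (m + 1)) =
      (a' - a) + (-(z' (m + 2) - z (m + 2)) + b * (z' m - z m)) := by
    have e1 := hz.eqn m
    have e2 := hz'.eqn m
    linear_combination e2 - e1
  have hmain : R * |z' (m + 1) - z (m + 1)| ≤
      |a' - a| + (1 + b) * max |z' (m + 1) - z (m + 1)| |z' 0 - z 0| := by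
    calc R * |z' (m + 1) - z (m + 1)|
        ≤ |z' (m + 1) + z (m + 1)| * |z' (m + 1) - z (m + 1)| :=
          mul_le_mul_of_nonneg_right hsum hD0
      _ = |(a' - a) + (-(z' (m + 2) - z (m + 2)) + b * (z' m - z m))| := by
          rw [← abs_mul, heq]
      _ ≤ |a' - a| + (|-(z' (m + 2) - z (m + 2))| + |b * (z' m - z m)|) :=
          (abs_add_le _ _).trans (add_le_add_right (abs_add_le _ _) _)
      _ = |a' - a| + (|z' (m + 2) - z (m + 2)| + b * |z' m - z m|) := by
          rw [abs_neg, abs_mul, abs_of_pos hb]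
      _ ≤ |a' - a| + (1 + b) * max |z' (m + 1) - z (m + 1)| |z' 0 - z 0| := by
          have := mul_le_mul_of_nonneg_left hM2 hb.le
          linarith
  have hR0 : (2 + 2 * b) * |z' (m + 1) - z (m + 1)| ≤ R * |z' (m + 1) - z (m + 1)| :=
    mul_le_mul_of_nonneg_right hR.le hD0
  rcases le_total |z' (m + 1) - z (m + 1)| |z' 0 - z 0| with h | h
  · rw [max_eq_right h] at hmain
    by_contra hcon
    push Not at hcon
    have h5 : (2 + 2 * b) * (|z' 0 - z 0| / 2 + |a' - a|) <
        (2 + 2 * b) * |z' (m + 1) - z (m + 1)| :=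
      mul_lt_mul_of_pos_left hcon (by linarith)
    nlinarith [mul_nonneg hb.le hA0]
  · rw [max_eq_left h] at hmain
    nlinarith [mul_nonneg hb.le hD0]

end Pool.Agent.helper23.HS
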