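import Pool.Agent.helper23.HS.Adj
import Pool.Agent.helper23.HS.Diff

/-!
# The window estimate (module HS-Core, helper23)
-/

namespace Pool.Agent.helper23.HS

open Finset

theorem gam_eq {b R : ℝ} (hb : 0 < b) (hR : 2 + 2 * b < R) :
    (1 + b) / (R - 1 - b) = 1 - kap b R := by
  unfold kap
  have : R - 1 - b ≠ 0 := by
    have : 0 < R - 1 - b := by linarith
    exact this.ne'
  field_simp
  ring

theorem sum_sq_le {n : ℕ} {g d : ℕ → ℝ} {γ D : ℝ} (hg : ∑ k ∈ range n, |g (k + 1)| ≤ γ)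
    (hd : ∀ k, k < n → |d (k + 1)| ≤ D) :
    |∑ k ∈ range n, g (k + 1) * d (k + 1) ^ 2| ≤ γ * D ^ 2 := by
  calc |∑ k ∈ range n, g (k + 1) * d (k + 1) ^ 2|
      ≤ ∑ k ∈ range n, |g (k + 1) * d (k + 1) ^ 2| := Finset.abs_sum_le_sum_abs _ _
    _ ≤ ∑ k ∈ range n, |g (k + 1)| * D ^ 2 := by
        apply Finset.sum_le_sum
        intro k hk
        rw [abs_mul, abs_pow]
        gcongr
        exact hd k (Finset.mem_range.1 hk)
    _ = (∑ k ∈ range n, |g (k + 1)|) * D ^ 2 := by rw [Finset.sum_mul]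
    _ ≤ γ * D ^ 2 := by gcongr

theorem phi_bound {b R : ℝ} {n : ℕ} {c : ℕ → ℝ} {φ : ℝ} (hb : 0 < b) (hR : 2 + 2 * b < R)
    (hc : ∀ k, 1 ≤ k → k ≤ n → R ≤ |c k|) (h : |chi b c n| ≤ 4)
    (hφ : φ * sol b c 0 1 (n + 1) = chi b c n) : |φ| ≤ 4 * (1 / 2) ^ n := by
  have h1 := (growth hb hR hc n le_rfl).2
  have h2 : |φ| * |sol b c 0 1 (n + 1)| ≤ 4 := by rw [← abs_mul, hφ]; exact h
  have h3 : |φ| * 2 ^ n ≤ 4 := (mul_le_mul_of_nonneg_left h1 (abs_nonneg _)).trans h2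
  rw [one_div, inv_pow, ← div_eq_mul_inv, le_div_iff₀ (by positivity)]
  exact h3

theorem one_side {a a' b R : ℝ} {n : ℕ} {z z' : ℕ → ℝ} (hb : 0 < b) (hR : 2 + 2 * b < R)
    (hz : Orb a b R n z) (hz' : Orb a' b R n z') (hs : ∀ k, 1 ≤ k → k ≤ n → 0 < z k * z' k)
    (h' : |chi b (fun k => 2 * z' k) n| ≤ 4) (hle : a ≤ a')
    (hd : a' - a ≤ kap b R / 4) :
    a' - a ≤ 16 / kap b R * (1 / 4) ^ n := by
  have hκ := kap_pos hb hR
  obtain ⟨g, g0, g1, hg, hG, hφ⟩ := adjoint (c := fun k => 2 * z' k) hb hR hz'.out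
  have hφ' := phi_bound hb hR hz'.out h' hφ
  have hid := ident hz' hz g0 g1 hg
  have hD := sup_bound hb hR hz hz' hs
  rw [gam_eq hb hR] at hG
  set e := a' - a with he
  have he0 : 0 ≤ e := by rw [he]; linarith
  set κ := kap b R with hκd
  set x := |z 0 - z' 0| with hx
  have hx0 : 0 ≤ x := abs_nonneg _
  have hxx : |z' 0 - z 0| = x := by rw [hx, abs_sub_comm]
  have hD' : ∀ k, k < n → |(fun k => z k - z' k) (k + 1)| ≤ x / 2 + e := by
    intro k hk
    have := hD k hk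
    rw [hxx, abs_of_nonneg he0] at this
    simp only
    rw [abs_sub_comm]
    exact this
  have hsum := sum_sq_le (d := fun k => z k - z' k) hG hD'
  set Q := ∑ k ∈ range n, g (k + 1) * (z (k + 1) - z' (k + 1)) ^ 2 with hQ
  have hS : κ ≤ 1 + ∑ k ∈ range n, g (k + 1) := by
    have h1 : |∑ k ∈ range n, g (k + 1)| ≤ 1 - κ := (Finset.abs_sum_le_sum_abs _ _).trans hG
    have := (abs_le.1 h1).1
    linarith
  have hκ1 : κ ≤ 1 := by
    have h1 : 0 ≤ ∑ k ∈ range n, |g (k + 1)| := Finset.sum_nonneg fun _ _ => abs_nonneg _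
    linarith
  set S := 1 + ∑ k ∈ range n, g (k + 1) with hSd
  set φ := g n + (fun k => 2 * z' k) 0 - b * g 1 with hφd
  have hid' : φ * (z 0 - z' 0) + (z 0 - z' 0) ^ 2 + Q = (a - a') * S := hid
  have hxsq : (z 0 - z' 0) ^ 2 = x ^ 2 := by rw [hx, sq_abs]
  have h5 : -(φ * (z 0 - z' 0)) ≤ 4 * (1 / 2) ^ n * x := by
    calc -(φ * (z 0 - z' 0)) ≤ |φ * (z 0 - z' 0)| := neg_le_abs _
      _ = |φ| * x := by rw [abs_mul]
      _ ≤ 4 * (1 / 2) ^ n * x := by gcongr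
  have h6 := (abs_le.1 hsum).1
  set η : ℝ := 4 * (1 / 2) ^ n with hη
  have h7 : κ * e ≤ e * S := by nlinarith
  have h8 : e * S = -(φ * (z 0 - z' 0)) - x ^ 2 - Q := by
    rw [← hxsq]
    have : e * S = -((a - a') * S) := by rw [he]; ring
    rw [this, ← hid']
    ring
  have h9 : (1 - κ) * (x / 2 + e) ^ 2 ≤ (x / 2 + e) ^ 2 := by
    have := sq_nonneg (x / 2 + e)
    nlinarith
  have h10 : κ * e ≤ η * x - x ^ 2 + (x / 2 + e) ^ 2 := by linarith
  have h11 : κ * e ≤ η ^ 2 / 2 + 2 * e ^ 2 := by nlinarith [sq_nonneg (x / 2 - e), sq_nonneg (x - η)]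
  have h12 : 2 * e ^ 2 ≤ κ * e / 2 := by nlinarith
  have h13 : κ * e ≤ η ^ 2 := by linarith
  have h14 : η ^ 2 = 16 * (1 / 4) ^ n := by
    rw [hη, mul_pow, ← pow_mul, mul_comm n 2, pow_mul]; norm_num
  rw [h14] at h13
  rw [div_mul_eq_mul_div, le_div_iff₀ hκ]
  linarith

/-- Two sinks with the same sign word and close parameters: the parameters are very close. -/
theorem window {a a' b R : ℝ} {n : ℕ} {z z' : ℕ → ℝ} (hb : 0 < b) (hR : 2 + 2 * b < R)
    (hz : Orb a b R n z) (hz' : Orb a' b R n z') (hs : ∀ k, 1 ≤ k → k ≤ n → 0 < z k * z' k)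
    (h : |chi b (fun k => 2 * z k) n| ≤ 4) (h' : |chi b (fun k => 2 * z' k) n| ≤ 4)
    (hd : |a' - a| ≤ kap b R / 4) :
    |a' - a| ≤ 16 / kap b R * (1 / 4) ^ n := by
  rcases le_total a a' with hle | hle
  · rw [abs_of_nonneg (by linarith)] at hd ⊢
    exact one_side hb hR hz hz' hs h' hle hd
  · rw [abs_sub_comm, abs_of_nonneg (by linarith)] at hd ⊢
    exact one_side hb hR hz' hz (fun k h1 h2 => by rw [mul_comm]; exact hs k h1 h2) h hle hd

/-- At most one sink for a given parameter and a given sign word. -/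
theorem unique {a b R : ℝ} {n : ℕ} {z z' : ℕ → ℝ} (hb : 0 < b) (hR : 2 + 2 * b < R)
    (hz : Orb a b R n z) (hz' : Orb a b R n z') (hs : ∀ k, 1 ≤ k → k ≤ n → 0 < z k * z' k)
    (h : 0 < chi b (fun k => 2 * z k) n) (h' : 0 < chi b (fun k => 2 * z' k) n) :
    ∀ k, k ≤ n → z k = z' k := by
  have hκ := kap_pos hb hR
  obtain ⟨g, g0, g1, hg, hG, hφ⟩ := adjoint (c := fun k => 2 * z k) hb hR hz.out
  obtain ⟨g', g0', g1', hg', hG', hφ'⟩ := adjoint (c := fun k => 2 * z' k) hb hR hz'.out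
  have hid := ident hz hz' g0 g1 hg
  have hid' := ident hz' hz g0' g1' hg'
  have hD := sup_bound hb hR hz hz' hs
  rw [gam_eq hb hR] at hG hG'
  have hv := sign (c := fun k => 2 * z k) (c' := fun k => 2 * z' k) hb hR hz.out hz'.out
    (fun k h1 h2 => by have := hs k h1 h2; nlinarith)
  set x := z' 0 - z 0 with hx
  have hD1 : ∀ k, k < n → |(fun k => z' k - z k) (k + 1)| ≤ |x| / 2 := by
    intro k hk
    have := hD k hk
    rw [sub_self, abs_zero, add_zero] at this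
    exact this
  have hD2 : ∀ k, k < n → |(fun k => z k - z' k) (k + 1)| ≤ |x| / 2 := by
    intro k hk
    have := hD1 k hk
    simp only at this ⊢
    rw [abs_sub_comm]
    exact this
  have hsum := (abs_le.1 (sum_sq_le (d := fun k => z' k - z k) hG hD1)).1
  have hsum' := (abs_le.1 (sum_sq_le (d := fun k => z k - z' k) hG' hD2)).1
  have hsq : (|x| / 2) ^ 2 = x ^ 2 / 4 := by rw [div_pow, sq_abs]; norm_num
  rw [hsq] at hsum hsum'
  set φ := g n + (fun k => 2 * z k) 0 - b * g 1 with hφd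
  set φ' := g' n + (fun k => 2 * z' k) 0 - b * g' 1 with hφd'
  set Q := ∑ k ∈ range n, g (k + 1) * (z' (k + 1) - z (k + 1)) ^ 2 with hQ
  set Q' := ∑ k ∈ range n, g' (k + 1) * (z (k + 1) - z' (k + 1)) ^ 2 with hQ'
  have e1 : φ * x + x ^ 2 + Q = 0 := by
    have : φ * x + x ^ 2 + Q = (a - a) * (1 + ∑ k ∈ range n, g (k + 1)) := hid
    rw [this]; ring
  have e2 : φ' * (-x) + x ^ 2 + Q' = 0 := by
    have h1 : φ' * (z 0 - z' 0) + (z 0 - z' 0) ^ 2 + Q'
      = (a - a) * (1 + ∑ k ∈ range n, g' (k + 1)) := hid'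
    have h2 : z 0 - z' 0 = -x := by rw [hx]; ring
    rw [h2] at h1
    nlinarith
  have hκ0 : (1 - kap b R) * (x ^ 2 / 4) ≤ x ^ 2 / 4 := by nlinarith [sq_nonneg x]
  have f1 : φ * x ≤ -(3 / 4) * x ^ 2 := by linarith
  have f2 : 3 / 4 * x ^ 2 ≤ φ' * x := by linarith
  -- sign of `φ φ'`
  have hpp : 0 < φ * φ' := by
    set v := sol b (fun k => 2 * z k) 0 1 (n + 1)
    set v' := sol b (fun k => 2 * z' k) 0 1 (n + 1)
    have h1 : 0 < (φ * v) * (φ' * v') := by rw [hφ, hφ']; exact mul_pos h h'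
    have h2 : (φ * v) * (φ' * v') = (φ * φ') * (v * v') := by ring
    rw [h2] at h1
    exact (mul_pos_iff_of_pos_right hv).1 h1
  have hx0 : x = 0 := by
    by_contra hne
    have hx2 : 0 < x ^ 2 := by positivity
    have h3 : (φ * x) * (φ' * x) < 0 := by
      apply mul_neg_of_neg_of_pos <;> nlinarith
    have h4 : (φ * x) * (φ' * x) = (φ * φ') * x ^ 2 := by ring
    rw [h4] at h3
    exact absurd (mul_pos hpp hx2) (not_lt.2 h3.le)
  intro k hk
  rcases Nat.eq_zero_or_pos k with rfl | hk0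
  · linarith
  · obtain ⟨j, rfl⟩ : ∃ j, k = j + 1 := ⟨k - 1, by omega⟩
    have := hD1 j (by omega)
    rw [hx0] at this
    simp only [abs_zero, zero_div] at this
    have h5 := abs_eq_zero.1 (le_antisymm this (abs_nonneg _))
    linarith

end Pool.Agent.helper23.HS
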