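import Pool.Agent.H48.HN.Defs

/-!
# Sinks of the Henon map with one visit to a vertical strip: definitions

In the coordinate `z = a x` the orbits of the Henon map are the solutions of
`z (k+2) + z (k+1) ^ 2 - b * z k = a`.
-/

namespace Pool.Agent.helper23.HS

open Pool.Agent.H48.HN

/-- `O` is a stable periodic orbit with exactly one point in the strip `|2 a x| < R`. -/
def OneVisit (a b R : ℝ) (O : Set (ℝ × ℝ)) : Prop :=
  IsSink a b O ∧ ∃! q : ℝ × ℝ, q ∈ O ∧ |2 * a * q.1| < R

/-- The solution of `x (k+2) = - c (k+1) * x (k+1) + b * x k` with `x 0 = α`, `x 1 = β`. -/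
def sol (b : ℝ) (c : ℕ → ℝ) (α β : ℝ) : ℕ → ℝ
  | 0 => α
  | 1 => β
  | k + 2 => - c (k + 1) * sol b c α β (k + 1) + b * sol b c α β k

/-- `1 - trace + det` of the derivative of the `(n+1)`-st iterate, `c k = 2 a x_k`. -/
def chi (b : ℝ) (c : ℕ → ℝ) (n : ℕ) : ℝ :=
  1 - sol b c 1 (-c 0) (n + 1) - b * sol b c 0 1 n
    + b * (sol b c 0 1 n * sol b c 1 (-c 0) (n + 1) - sol b c 1 (-c 0) n * sol b c 0 1 (n + 1))

/-- `z` is the scaled orbit of a point of period `n + 1` (not necessarily least) whose iterates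
number `1, ..., n` are outside the strip. -/
structure Orb (a b R : ℝ) (n : ℕ) (z : ℕ → ℝ) : Prop where
  per : z (n + 1) = z 0
  per1 : z (n + 2) = z 1
  eqn : ∀ k, z (k + 2) + z (k + 1) ^ 2 - b * z k = a
  out : ∀ k, 1 ≤ k → k ≤ n → R ≤ |2 * z k|

/-- The constant of the window estimate. -/
noncomputable def kap (b R : ℝ) : ℝ := (R - 2 - 2 * b) / (R - 1 - b)

theorem kap_pos {b R : ℝ} (hb : 0 < b) (hR : 2 + 2 * b < R) : 0 < kap b R := by
  unfold kap
  apply div_pos <;> linarith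

end Pool.Agent.helper23.HS
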