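import Mathlib

/-!
# Sets covered infinitely often by small windows (module HS-Dim)

`T w`, `w` a word of length `n`: inside every interval of length `δ` the set `T w` has diameter at
most `C 4^(-n)`. There are `2^n` words of length `n`. So for `s > 1/2` and every interval
`J = [j δ, (j+1) δ]`, for all `N`: `{a | infinitely many w with a ∈ T w} ∩ J` is covered by the sets
`T w ∩ J`, `w.length ≥ N` (infinitely many words have length at least `N` since there are finitely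
many shorter words), and `sum over these w of (diam)^s ≤ sum over n ≥ N of 2^n (C 4^(-n))^s → 0`
(`MeasureTheory.Measure.hausdorffMeasure_le_liminf_tsum`). So `μH[s] = 0` on each `J`, hence
`dimH ≤ s` (`dimH_le_of_hausdorffMeasure_ne_top`, `dimH_iUnion`), for all `s > 1/2`.
Second theorem: `hausdorffMeasure_of_dimH_lt` and `MeasureTheory.hausdorffMeasure_real`.
-/

namespace Pool.Agent.helper23.HS

open MeasureTheory Set Filter Topology
open scoped ENNReal NNReal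

/-- the windows: words of length `N + k`, cut with `J` -/
def win (T : List Bool → Set ℝ) (J : Set ℝ) (N : ℕ) (i : Σ k : ℕ, (Fin (N + k) → Bool)) : Set ℝ :=
  T (List.ofFn i.2) ∩ J

lemma win_cover (T : List Bool → Set ℝ) (J : Set ℝ) (N : ℕ) :
    {a | {w | a ∈ T w}.Infinite} ∩ J ⊆ ⋃ i, win T J N i := by
  rintro a ⟨ha, haJ⟩
  replace ha : {w | a ∈ T w}.Infinite := ha
  have h1 : ∃ w, a ∈ T w ∧ N ≤ w.length := by
    by_contra hcon
    push Not at hcon
    apply ha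
    apply (List.finite_length_lt Bool N).subset
    intro w hw
    exact hcon w hw
  obtain ⟨w, hw, hN⟩ := h1
  obtain ⟨k, hk⟩ := Nat.exists_eq_add_of_le hN
  have h2 : ∃ g : Fin w.length → Bool, List.ofFn g = w := ⟨w.get, List.ofFn_get w⟩
  rw [hk] at h2
  obtain ⟨g, hg⟩ := h2
  rw [mem_iUnion]
  refine ⟨⟨k, g⟩, ?_, haJ⟩
  show a ∈ T (List.ofFn g)
  rw [hg]; exact hw

lemma win_diam {T : List Bool → Set ℝ} {C δ : ℝ} {J : Set ℝ}
    (hT : ∀ w, ∀ x ∈ T w, ∀ y ∈ T w, |x - y| ≤ δ → |x - y| ≤ C * (1 / 4) ^ w.length)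
    (hJ : ∀ x ∈ J, ∀ y ∈ J, |x - y| ≤ δ) (N : ℕ) (i : Σ k : ℕ, (Fin (N + k) → Bool)) :
    Metric.ediam (win T J N i) ≤ ENNReal.ofReal C * ENNReal.ofReal (1 / 4) ^ (N + i.1) := by
  apply Metric.ediam_le
  rintro x ⟨hx, hxJ⟩ y ⟨hy, hyJ⟩
  have h1 := hT _ x hx y hy (hJ x hxJ y hyJ)
  rw [List.length_ofFn] at h1
  rw [edist_dist, Real.dist_eq, ← ENNReal.ofReal_pow (by norm_num),
    ← ENNReal.ofReal_mul' (by positivity)]
  exact ENNReal.ofReal_le_ofReal h1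

lemma win_tsum_le (A : ℝ≥0∞) (s : ℝ) (hs : 0 ≤ s) (N : ℕ) :
    ∑' i : (Σ k : ℕ, (Fin (N + k) → Bool)), (A * ENNReal.ofReal (1 / 4) ^ (N + i.1)) ^ s =
      A ^ s * ((2 * ENNReal.ofReal (1 / 4) ^ s) ^ N * ∑' k : ℕ, (2 * ENNReal.ofReal (1 / 4) ^ s) ^ k)
      := by
  rw [ENNReal.tsum_sigma', ← ENNReal.tsum_mul_left, ← ENNReal.tsum_mul_left]
  apply tsum_congr
  intro k
  show ∑' _b : (Fin (N + k) → Bool), (A * ENNReal.ofReal (1 / 4) ^ (N + k)) ^ s = _
  rw [tsum_fintype, Finset.sum_const, Finset.card_univ]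
  have h1 : Fintype.card (Fin (N + k) → Bool) = 2 ^ (N + k) := by simp
  rw [h1, nsmul_eq_mul, ENNReal.mul_rpow_of_nonneg _ _ hs]
  have h2 : (ENNReal.ofReal (1 / 4) ^ (N + k)) ^ s = (ENNReal.ofReal (1 / 4) ^ s) ^ (N + k) := by
    rw [← ENNReal.rpow_natCast, ← ENNReal.rpow_natCast, ← ENNReal.rpow_mul, ← ENNReal.rpow_mul,
      mul_comm]
  rw [h2, ← pow_add, mul_pow]
  push_cast
  ring

lemma ratio_lt_one {s : ℝ} (hs : 1 / 2 < s) : 2 * ENNReal.ofReal (1 / 4) ^ s < 1 := by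
  have h1 : ENNReal.ofReal (1 / 4) ^ s = ENNReal.ofReal ((1 / 4) ^ s) :=
    ENNReal.ofReal_rpow_of_pos (by norm_num)
  have h2 : ((1 : ℝ) / 4) ^ s < 1 / 2 := by
    have h3 : ((1 : ℝ) / 4) ^ s < ((1 : ℝ) / 4) ^ ((1 : ℝ) / 2) :=
      Real.rpow_lt_rpow_of_exponent_gt (by norm_num) (by norm_num) hs
    have h4 : ((1 : ℝ) / 4) ^ ((1 : ℝ) / 2) = 1 / 2 := by
      rw [← Real.sqrt_eq_rpow]
      rw [show (1 : ℝ) / 4 = (1 / 2) ^ 2 by norm_num]
      exact Real.sqrt_sq (by norm_num)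
    linarith
  rw [h1, show (2 : ℝ≥0∞) = ENNReal.ofReal 2 by simp, ← ENNReal.ofReal_mul (by norm_num),
    show (1 : ℝ≥0∞) = ENNReal.ofReal 1 by simp]
  exact (ENNReal.ofReal_lt_ofReal_iff (by norm_num)).mpr (by linarith)

lemma measure_zero {T : List Bool → Set ℝ} {C δ : ℝ} {J : Set ℝ}
    (hT : ∀ w, ∀ x ∈ T w, ∀ y ∈ T w, |x - y| ≤ δ → |x - y| ≤ C * (1 / 4) ^ w.length)
    (hJ : ∀ x ∈ J, ∀ y ∈ J, |x - y| ≤ δ) {s : ℝ} (hs : 1 / 2 < s) :
    μH[s] ({a | {w | a ∈ T w}.Infinite} ∩ J) = 0 := by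
  have hs0 : 0 ≤ s := by linarith
  set q : ℝ≥0∞ := 2 * ENNReal.ofReal (1 / 4) ^ s with hq
  have hq1 : q < 1 := ratio_lt_one hs
  set A : ℝ≥0∞ := ENNReal.ofReal C with hA
  have hA1 : A ≠ ∞ := ENNReal.ofReal_ne_top
  set r : ℕ → ℝ≥0∞ := fun N => A * ENNReal.ofReal (1 / 4) ^ N with hr
  have h4 : ENNReal.ofReal (1 / 4) < 1 := by
    rw [show (1 : ℝ≥0∞) = ENNReal.ofReal 1 by simp]
    exact (ENNReal.ofReal_lt_ofReal_iff (by norm_num)).mpr (by norm_num)
  have hr0 : Tendsto r atTop (𝓝 0) := by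
    have h := ENNReal.Tendsto.const_mul (ENNReal.tendsto_pow_atTop_nhds_zero_of_lt_one h4)
      (Or.inr hA1) (a := A)
    rw [mul_zero] at h
    exact h
  have h5 := Measure.hausdorffMeasure_le_liminf_tsum (ι := fun N => Σ k : ℕ, (Fin (N + k) → Bool))
    s ({a | {w | a ∈ T w}.Infinite} ∩ J) (l := atTop) r hr0 (fun N i => win T J N i)
    (Eventually.of_forall (fun N i => by
      refine (win_diam hT hJ N i).trans ?_
      rw [hr]
      show A * _ ≤ A * _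
      exact mul_le_mul_right (pow_le_pow_right_of_le_one' h4.le (Nat.le_add_right N i.1)) A))
    (Eventually.of_forall (fun N => win_cover T J N))
  have h6 : Tendsto (fun N : ℕ => A ^ s * (q ^ N * ∑' k : ℕ, q ^ k)) atTop (𝓝 0) := by
    have h7 : ∑' k : ℕ, q ^ k ≠ ∞ := by
      rw [ENNReal.tsum_geometric]
      rw [ENNReal.inv_ne_top]
      exact (tsub_pos_of_lt hq1).ne'
    have h8 := ENNReal.Tendsto.mul_const (ENNReal.tendsto_pow_atTop_nhds_zero_of_lt_one hq1)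
      (Or.inr h7) (b := ∑' k : ℕ, q ^ k)
    rw [zero_mul] at h8
    have h9 := ENNReal.Tendsto.const_mul h8 (Or.inr (ENNReal.rpow_ne_top_of_nonneg hs0 hA1))
      (a := A ^ s)
    rw [mul_zero] at h9
    exact h9
  have h7 : Tendsto (fun N => ∑' i, Metric.ediam (win T J N i) ^ s) atTop (𝓝 0) := by
    refine tendsto_of_tendsto_of_tendsto_of_le_of_le tendsto_const_nhds h6 (fun _ => bot_le) ?_
    intro N
    show _ ≤ A ^ s * (q ^ N * ∑' k : ℕ, q ^ k)
    rw [← win_tsum_le A s hs0 N]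
    apply ENNReal.tsum_le_tsum
    intro i
    exact ENNReal.rpow_le_rpow (win_diam hT hJ N i) hs0
  rw [h7.liminf_eq] at h5
  exact le_antisymm h5 bot_le

theorem dimH_infinitely_often {T : List Bool → Set ℝ} {C δ : ℝ} (hδ : 0 < δ)
    (hT : ∀ w, ∀ x ∈ T w, ∀ y ∈ T w, |x - y| ≤ δ → |x - y| ≤ C * (1 / 4) ^ w.length) :
    dimH {a | {w | a ∈ T w}.Infinite} ≤ 1 / 2 := by
  set E : Set ℝ := {a | {w | a ∈ T w}.Infinite} with hE
  set J : ℤ → Set ℝ := fun j => Icc (j * δ) ((j + 1) * δ) with hJ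
  have hcov : E = ⋃ j, E ∩ J j := by
    rw [← inter_iUnion]
    have : (⋃ j, J j) = univ := by
      rw [eq_univ_iff_forall]
      intro x
      rw [mem_iUnion]
      refine ⟨⌊x / δ⌋, ?_, ?_⟩
      · have := Int.floor_le (x / δ)
        rwa [le_div_iff₀ hδ] at this
      · have := Int.lt_floor_add_one (x / δ)
        rw [div_lt_iff₀ hδ] at this
        exact this.le
    rw [this, inter_univ]
  have hJd : ∀ j, ∀ x ∈ J j, ∀ y ∈ J j, |x - y| ≤ δ := by
    intro j x hx y hy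
    rw [abs_le]
    have h1 := hx.1; have h2 := hx.2; have h3 := hy.1; have h4 := hy.2
    constructor <;> nlinarith
  have hmain : ∀ s : ℝ≥0, (1 / 2 : ℝ≥0) < s → dimH E ≤ s := by
    intro s hs
    have hs' : (1 : ℝ) / 2 < (s : ℝ) := by
      have : ((1 / 2 : ℝ≥0) : ℝ) < (s : ℝ) := NNReal.coe_lt_coe.mpr hs
      simpa using this
    rw [hcov, dimH_iUnion]
    apply iSup_le
    intro j
    apply dimH_le_of_hausdorffMeasure_ne_top
    rw [measure_zero hT (hJd j) hs']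
    exact ENNReal.zero_ne_top
  have hhalf : ((1 / 2 : ℝ≥0) : ℝ≥0∞) = 1 / 2 := by
    rw [ENNReal.coe_div (by norm_num)]; simp
  apply le_of_forall_gt_imp_ge_of_dense
  intro b hb
  obtain ⟨s, hs1, hs2⟩ := ENNReal.lt_iff_exists_nnreal_btwn.mp hb
  rw [← hhalf] at hs1
  exact (hmain s (ENNReal.coe_lt_coe.mp hs1)).trans hs2.le

theorem volume_zero_of_dimH {S : Set ℝ} (h : dimH S ≤ 1 / 2) : volume S = 0 := by
  have h1 : dimH S < ((1 : ℝ≥0) : ℝ≥0∞) := by
    refine lt_of_le_of_lt h ?_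
    rw [ENNReal.coe_one, one_div]
    exact ENNReal.inv_lt_one.mpr ENNReal.one_lt_two
  have h2 := hausdorffMeasure_of_dimH_lt h1
  rw [NNReal.coe_one, hausdorffMeasure_real] at h2
  exact h2

end Pool.Agent.helper23.HS
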