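import Pool.Agent.helper23.HS.Defs
import Pool.Agent.H48.HN.Sink

/-!
# The derivative along a periodic orbit (module HS-Jac)

`J k := jacIter a b q k`, `c k = 2 * (a * ((henon a b)^[k] q).1)`. Entries:
`J (k+1) 0 j = - c k * J k 0 j + J k 1 j`, `J (k+1) 1 j = b * J k 0 j`, hence
`J k 0 1 = sol b c 0 1 k`, `J k 0 0 = sol b c 1 (- c 0) k`, `J (k+1) 1 1 = b * sol b c 0 1 k`,
`J (k+1) 1 0 = b * sol b c 1 (- c 0) k` (induction). So `chi_eq` (`Matrix.trace_fin_two`,
`Matrix.det_fin_two`). `det J N = (-b)^N`.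
base: `jacIter a b p (m + k) = jacIter a b ((henon a b)^[k] p) m * jacIter a b p k` (induction on `m`).
With `(henon a b)^[N] p = p` and `q = (henon a b)^[i] p`: `J_q(N) * J_p(i) = J_p(i) * J_p(N)`, and
`J_p(i)` is invertible (`det = (-b)^i`), so trace and det agree (multiply by the adjugate or use
`Matrix.trace_mul_comm`, `Matrix.nonsing_inv`).
sink_bounds: `charpoly_root`, `jury_one`, `jury_neg` of H48/HN/Sink.lean: `0 < 1 - t + d`,
`0 < 1 + t + d`, `d = (-b)^N`, `|d| ≤ 1`, so `1 - t + d ≤ 2 + 2 d ≤ 4`.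
-/

namespace Pool.Agent.helper23.HS

open Pool.Agent.H48.HN

/-- The entries of the derivative of the iterates. -/
theorem Jac_entries (a b : ℝ) (q : ℝ × ℝ) (n : ℕ) :
    jacIter a b q n 0 1 = sol b (fun k => 2 * (a * ((henon a b)^[k] q).1)) 0 1 n ∧
    jacIter a b q n 0 0 = sol b (fun k => 2 * (a * ((henon a b)^[k] q).1)) 1
      (-(2 * (a * q.1))) n ∧
    jacIter a b q (n + 1) 0 1 = sol b (fun k => 2 * (a * ((henon a b)^[k] q).1)) 0 1 (n + 1) ∧
    jacIter a b q (n + 1) 0 0 = sol b (fun k => 2 * (a * ((henon a b)^[k] q).1)) 1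
      (-(2 * (a * q.1))) (n + 1) ∧
    jacIter a b q (n + 1) 1 1 = b * sol b (fun k => 2 * (a * ((henon a b)^[k] q).1)) 0 1 n ∧
    jacIter a b q (n + 1) 1 0 = b * sol b (fun k => 2 * (a * ((henon a b)^[k] q).1)) 1
      (-(2 * (a * q.1))) n := by
  induction n with
  | zero =>
    refine ⟨?_, ?_, ?_, ?_, ?_, ?_⟩
    · simp [jacIter, sol]
    · simp [jacIter, sol]
    · simp [jacIter, jac, sol, Matrix.mul_apply, Fin.sum_univ_two]
    · simp [jacIter, jac, sol, Matrix.mul_apply, Fin.sum_univ_two]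
      ring
    · simp [jacIter, jac, sol, Matrix.mul_apply, Fin.sum_univ_two]
    · simp [jacIter, jac, sol, Matrix.mul_apply, Fin.sum_univ_two]
  | succ n ih =>
    obtain ⟨-, -, h3, h4, h5, h6⟩ := ih
    have e : ∀ i j, jacIter a b q (n + 2) i j
        = (jac a b ((henon a b)^[n + 1] q) * jacIter a b q (n + 1)) i j := fun i j => rfl
    refine ⟨h3, h4, ?_, ?_, ?_, ?_⟩
    · rw [show n + 1 + 1 = n + 2 from rfl, e, Matrix.mul_apply, Fin.sum_univ_two, h3, h5]
      simp only [jac, sol, Matrix.of_apply, Matrix.cons_val', Matrix.cons_val_zero,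
        Matrix.cons_val_one, Matrix.cons_val_fin_one]
      ring
    · rw [show n + 1 + 1 = n + 2 from rfl, e, Matrix.mul_apply, Fin.sum_univ_two, h4, h6]
      simp only [jac, sol, Matrix.of_apply, Matrix.cons_val', Matrix.cons_val_zero,
        Matrix.cons_val_one, Matrix.cons_val_fin_one]
      ring
    · rw [show n + 1 + 1 = n + 2 from rfl, e, Matrix.mul_apply, Fin.sum_univ_two, h3, h5]
      simp only [jac, sol, Matrix.of_apply, Matrix.cons_val', Matrix.cons_val_zero,
        Matrix.cons_val_one, Matrix.cons_val_fin_one]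
      ring
    · rw [show n + 1 + 1 = n + 2 from rfl, e, Matrix.mul_apply, Fin.sum_univ_two, h4, h6]
      simp only [jac, sol, Matrix.of_apply, Matrix.cons_val', Matrix.cons_val_zero,
        Matrix.cons_val_one, Matrix.cons_val_fin_one]
      ring

theorem chi_eq (a b : ℝ) (q : ℝ × ℝ) (n : ℕ) :
    1 - (jacIter a b q (n + 1)).trace + (jacIter a b q (n + 1)).det
      = chi b (fun k => 2 * (a * ((henon a b)^[k] q).1)) n := by
  obtain ⟨-, -, h3, h4, h5, h6⟩ := Jac_entries a b q n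
  rw [Matrix.trace_fin_two, Matrix.det_fin_two, h3, h4, h5, h6]
  simp only [chi, Function.iterate_zero, id]
  ring

theorem det_iter (a b : ℝ) (q : ℝ × ℝ) (n : ℕ) : (jacIter a b q n).det = (-b) ^ n :=
  det_jacIter a b q n

/-- The cocycle property. -/
theorem Jac_add (a b : ℝ) (p : ℝ × ℝ) (m k : ℕ) :
    jacIter a b p (m + k) = jacIter a b ((henon a b)^[k] p) m * jacIter a b p k := by
  induction m with
  | zero => simp [jacIter]
  | succ m ih =>
    have e1 : jacIter a b p (m + 1 + k)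
        = jac a b ((henon a b)^[m + k] p) * jacIter a b p (m + k) := by
      rw [show m + 1 + k = (m + k) + 1 by ring]
      rfl
    have e2 : jacIter a b ((henon a b)^[k] p) (m + 1)
        = jac a b ((henon a b)^[m] ((henon a b)^[k] p)) * jacIter a b ((henon a b)^[k] p) m := rfl
    rw [e1, e2, ih, Function.iterate_add_apply, Matrix.mul_assoc]

theorem base {a b : ℝ} (hb : b ≠ 0) {p : ℝ × ℝ} {N : ℕ} (hp : (henon a b)^[N] p = p) (i : ℕ) :
    (jacIter a b ((henon a b)^[i] p) N).trace = (jacIter a b p N).trace := by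
  have h1 := Jac_add a b p N i
  have h2 := Jac_add a b p i N
  rw [hp] at h2
  rw [add_comm N i, h2] at h1
  have hdet : IsUnit (jacIter a b p i).det := by
    rw [det_iter]
    exact isUnit_iff_ne_zero.2 (pow_ne_zero _ (neg_ne_zero.2 hb))
  have h3 : jacIter a b ((henon a b)^[i] p) N
      = jacIter a b p i * jacIter a b p N * (jacIter a b p i)⁻¹ := by
    rw [h1, Matrix.mul_assoc, Matrix.mul_nonsing_inv _ hdet, Matrix.mul_one]
  rw [h3, Matrix.trace_mul_comm, ← Matrix.mul_assoc, Matrix.nonsing_inv_mul _ hdet,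
    Matrix.one_mul]

theorem sink_bounds {a b : ℝ} (hb : 0 < b) (hb1 : b < 1) {p : ℝ × ℝ} {n : ℕ}
    (h : ∀ μ : ℂ, (((jacIter a b p (n + 1)).map (algebraMap ℝ ℂ)).charpoly).IsRoot μ → ‖μ‖ < 1) :
    0 < 1 - (jacIter a b p (n + 1)).trace + (jacIter a b p (n + 1)).det ∧
      1 - (jacIter a b p (n + 1)).trace + (jacIter a b p (n + 1)).det ≤ 4 := by
  have hr : ∀ μ : ℂ, μ ^ 2 - ((jacIter a b p (n + 1)).trace : ℂ) * μ
      + ((jacIter a b p (n + 1)).det : ℂ) = 0 → ‖μ‖ < 1 := fun μ hμ => h μ (charpoly_root.2 hμ)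
  have j1 := jury_one hr
  have j2 := jury_neg hr
  refine ⟨j1, ?_⟩
  have hd : (jacIter a b p (n + 1)).det ≤ 1 := by
    rw [det_iter]
    calc (-b) ^ (n + 1) ≤ |(-b) ^ (n + 1)| := le_abs_self _
      _ = b ^ (n + 1) := by rw [abs_pow, abs_neg, abs_of_pos hb]
      _ ≤ 1 := pow_le_one₀ hb.le hb1.le
  linarith

end Pool.Agent.helper23.HS
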