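import Pool.Agent.helper23.HS.Defs

/-!
# The windows: parameters with a near-parabolic one-visit orbit of a given sign word
-/

namespace Pool.Agent.helper23.HS

/-- Parameters `a` for which there is a periodic orbit with sign word `w` outside the strip and
`|1 - trace + det| ≤ 4`. -/
def T (b R : ℝ) (w : List Bool) : Set ℝ :=
  {a | ∃ z : ℕ → ℝ, Orb a b R w.length z ∧
    (∀ (k : ℕ) (hk : k < w.length),
      (w[k] = true → 0 ≤ z (k + 1)) ∧ (w[k] = false → z (k + 1) ≤ 0)) ∧
    |chi b (fun k => 2 * z k) w.length| ≤ 4}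

end Pool.Agent.helper23.HS
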