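import Pool.Agent.helper23.HS.Core
import Pool.Agent.helper23.HS.Link
import Pool.Agent.helper23.HS.Dim
import Pool.Agent.helper23.HS.Words

/-!
# Few parameters with infinitely many one-visit sinks, for fixed `b` (helper23)
-/

namespace Pool.Agent.helper23.HS

open Pool.Agent.H48.HN MeasureTheory Set

theorem T_window {b R : ℝ} (hb : 0 < b) (hR : 2 + 2 * b < R) (w : List Bool) :
    ∀ x ∈ T b R w, ∀ y ∈ T b R w, |x - y| ≤ kap b R / 4 →
      |x - y| ≤ 16 / kap b R * (1 / 4) ^ w.length := by
  rintro x ⟨z, hz, hw, hc⟩ y ⟨z', hz', hw', hc'⟩ hd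
  refine window hb hR hz' hz ?_ hc' hc hd
  intro k h1 h2
  obtain ⟨j, rfl⟩ : ∃ j, k = j + 1 := ⟨k - 1, by omega⟩
  have hj : j < w.length := by omega
  have o1 := hz.out (j + 1) h1 h2
  have o2 := hz'.out (j + 1) h1 h2
  have hR0 : 0 < R := by linarith
  have n1 : z (j + 1) ≠ 0 := by
    intro h; rw [h] at o1; simp at o1; linarith
  have n2 : z' (j + 1) ≠ 0 := by
    intro h; rw [h] at o2; simp at o2; linarith
  rcases Bool.eq_false_or_eq_true (w[j]) with h | h
  · have e1 := (hw j hj).1 h
    have e2 := (hw' j hj).1 h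
    exact mul_pos (lt_of_le_of_ne e2 n2.symm) (lt_of_le_of_ne e1 n1.symm)
  · have e1 := (hw j hj).2 h
    have e2 := (hw' j hj).2 h
    exact mul_pos_of_neg_of_neg (lt_of_le_of_ne e2 n2) (lt_of_le_of_ne e1 n1)

/-- The sign word. -/
noncomputable def word (n : ℕ) (z : ℕ → ℝ) : List Bool :=
  List.ofFn (fun k : Fin n => decide (0 ≤ z (k + 1)))

theorem word_length (n : ℕ) (z : ℕ → ℝ) : (word n z).length = n := by simp [word]

theorem word_get (n : ℕ) (z : ℕ → ℝ) (k : ℕ) (hk : k < (word n z).length) :
    (word n z)[k] = decide (0 ≤ z (k + 1)) := by simp [word]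

theorem infinite_words {a b R : ℝ} (ha : 0 < a) (hb : 0 < b) (hb1 : b < 1) (hR : 2 + 2 * b < R)
    (h : {O | OneVisit a b R O}.Infinite) : {w | a ∈ T b R w}.Infinite := by
  by_contra hfin
  rw [Set.not_infinite] at hfin
  apply h
  choose! n z hz hc hc4 hO using fun (O : Set (ℝ × ℝ)) (h : OneVisit a b R O) =>
    exists_orb (R := R) ha hb hb1 h
  refine Set.Finite.of_injOn (f := fun O => word (n O) (z O)) (fun O hOm => ?_) ?_ hfin
  · refine ⟨z O, ?_, ?_, ?_⟩
    · rw [word_length]; exact hz O hOm
    · intro k hk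
      rw [word_get]
      refine ⟨fun h => by simpa using h, fun h => ?_⟩
      have := of_decide_eq_false h
      linarith
    · rw [word_length, abs_of_pos (hc O hOm)]
      exact hc4 O hOm
  · intro O hOm O' hOm' he
    have hn : n O = n O' := by
      have := congrArg List.length he
      simpa [word_length] using this
    have hR0 : 0 < R := by linarith
    have hz1 := hz O hOm
    have hz2 := hz O' hOm'
    rw [← hn] at hz2
    have hc2 := hc O' hOm'
    rw [← hn] at hc2
    have hs : ∀ k, 1 ≤ k → k ≤ n O → 0 < z O k * z O' k := by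
      intro k h1 h2
      obtain ⟨j, rfl⟩ : ∃ j, k = j + 1 := ⟨k - 1, by omega⟩
      have o1 := hz1.out (j + 1) h1 h2
      have o2 := hz2.out (j + 1) h1 h2
      have n1 : z O (j + 1) ≠ 0 := by
        intro h; rw [h] at o1; simp at o1; linarith
      have n2 : z O' (j + 1) ≠ 0 := by
        intro h; rw [h] at o2; simp at o2; linarith
      have hj1 : j < (word (n O) (z O)).length := by rw [word_length]; omega
      have hj2 : j < (word (n O') (z O')).length := by rw [word_length]; omega
      have key : (word (n O) (z O))[j] = (word (n O') (z O'))[j] := by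
        simp only [he]
      rw [word_get, word_get] at key
      by_cases hp : 0 ≤ z O (j + 1)
      · have hp' : 0 ≤ z O' (j + 1) := by
          rw [decide_eq_true hp] at key
          exact of_decide_eq_true key.symm
        exact mul_pos (lt_of_le_of_ne hp n1.symm) (lt_of_le_of_ne hp' n2.symm)
      · have hp' : ¬ 0 ≤ z O' (j + 1) := by
          rw [decide_eq_false hp] at key
          exact of_decide_eq_false key.symm
        exact mul_pos_of_neg_of_neg (not_le.1 hp) (not_le.1 hp')
    have huni := unique hb hR hz1 hz2 hs (hc O hOm) hc2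
    rw [hO O hOm, hO O' hOm', ← hn, huni 0 (Nat.zero_le _), huni (n O) le_rfl]

theorem slice {b R : ℝ} (hb : 0 < b) (hR : 2 + 2 * b < R) :
    dimH {a | {w | a ∈ T b R w}.Infinite} ≤ 1 / 2 :=
  dimH_infinitely_often (C := 16 / kap b R) (δ := kap b R / 4)
    (by have := kap_pos hb hR; positivity) (T_window hb hR)

theorem slice_sinks {b R : ℝ} (hb : 0 < b) (hR : 2 + 2 * b < R) :
    dimH {a | 0 < a ∧ {O | OneVisit a b R O}.Infinite} ≤ 1 / 2 := by
  rcases lt_or_ge b 1 with hb1 | hb1
  · refine (dimH_mono ?_).trans (slice hb hR)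
    rintro a ⟨ha, h⟩
    exact infinite_words ha hb hb1 hR h
  · have : {a | 0 < a ∧ {O | OneVisit a b R O}.Infinite} = ∅ := by
      refine Set.eq_empty_of_forall_notMem ?_
      rintro a ⟨ha, h⟩
      obtain ⟨O, hO⟩ := h.nonempty
      exact no_sink hb1 O hO.1
    rw [this, dimH_empty]
    exact zero_le

end Pool.Agent.helper23.HS
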